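import Mathlib
import Pool.Agent.Helper17.SympBase
import Pool.Agent.Helper17.Finiteness

open scoped ContDiff Distributions Topology
open Set Function TopologicalSpace MeasureTheory

namespace Pool.Agent.Results.MP_ec5dc5_gt.CriticalFiniteness

open Pool.Agent.Helper17

/-- The scale invariant energy `∫ ‖D²φ‖^{2n}` of `φ ∈ Symp_ct(ℝ^{2n})`. -/
noncomputable def criticalEnergy {n : ℕ} (φ : SympCt n) : ℝ :=
  ∫ x, ‖iteratedFDeriv ℝ 2 (φ : Equiv.Perm (Phase n)) x‖ ^ (2 * n)

/-- The set `Z(L, E)` of the path components of `Symp_ct(ℝ^{2n})` which contain an element `φ` with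
`‖Dφ‖ ≤ L` everywhere and `∫ ‖D²φ‖^{2n} ≤ E`. -/
def boundedClasses (n : ℕ) (L E : ℝ) : Set (ZerothHomotopy (SympCt n)) :=
  {c | ∃ φ : SympCt n, ZerothHomotopy.mk φ = c ∧
    (∀ x : Phase n, ‖fderiv ℝ (φ : Equiv.Perm (Phase n)) x‖ ≤ L) ∧ criticalEnergy φ ≤ E}

lemma criticalEnergy_eq {n : ℕ} (φ : SympCt n) : criticalEnergy φ =
    ∫ x, ‖fderiv ℝ (fderiv ℝ (φ : Equiv.Perm (Phase n))) x‖ ^ (2 * n) := by
  unfold criticalEnergy
  congr 1
  ext1 x
  rw [← norm_iteratedFDeriv_fderiv, norm_iteratedFDeriv_one]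

lemma finite_boundedClasses (n : ℕ) (L E : ℝ) : (boundedClasses n L E).Finite := by
  rcases eq_or_ne n 0 with hn | hn
  · subst hn
    have hsub : Subsingleton (SympCt 0) :=
      ⟨fun φ ψ => SympCt.ext' fun x => Subsingleton.elim _ _⟩
    have hsub' : Subsingleton (ZerothHomotopy (SympCt 0)) := by
      constructor
      intro a b
      induction a using ZerothHomotopy.rec with
      | mk φ =>
        induction b using ZerothHomotopy.rec with
        | mk ψ => rw [Subsingleton.elim φ ψ]
    exact Set.toFinite _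
  · obtain ⟨F, hF, h⟩ := finiteness hn L E
    refine (hF.image (fun g => ZerothHomotopy.mk g)).subset ?_
    rintro c ⟨φ, rfl, hL, hE⟩
    rw [criticalEnergy_eq] at hE
    obtain ⟨g, hg, hj⟩ := h φ hL hE
    exact ⟨g, hg, ZerothHomotopy.sound (hj.symm).somePath⟩

/-- A compactly supported symplectomorphism has bounded derivative. -/
lemma exists_bound_fderiv {n : ℕ} (φ : SympCt n) :
    ∃ C : ℝ, ∀ x : Phase n, ‖fderiv ℝ (φ : Equiv.Perm (Phase n)) x‖ ≤ C := by
  obtain ⟨K, hK, hφK⟩ := φ.2.2.2.2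
  have hc : Continuous (fderiv ℝ (φ : Equiv.Perm (Phase n))) :=
    (SympCt.contDiff φ).continuous_fderiv (by simp)
  obtain ⟨C, hC⟩ := hK.exists_bound_of_continuousOn hc.continuousOn
  refine ⟨max C ‖ContinuousLinearMap.id ℝ (Phase n)‖, fun x => ?_⟩
  by_cases hx : x ∈ K
  · exact (hC x hx).trans (le_max_left _ _)
  · have h1 : (φ : Equiv.Perm (Phase n)) =ᶠ[nhds x] fun y => y := by
      filter_upwards [hK.isClosed.isOpen_compl.mem_nhds hx] with y hy
      exact hφK y hy
    rw [h1.fderiv_eq, fderiv_fun_id]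
    exact le_max_right _ _

/-- Every path component lies in some `Z(k, k)`. -/
lemma iUnion_boundedClasses (n : ℕ) :
    (⋃ k : ℕ, boundedClasses n k k) = (Set.univ : Set (ZerothHomotopy (SympCt n))) := by
  refine Set.eq_univ_of_forall fun c => ?_
  induction c using ZerothHomotopy.rec with
  | mk φ =>
    obtain ⟨C, hC⟩ := exists_bound_fderiv φ
    obtain ⟨k, hk⟩ := exists_nat_ge (max C (criticalEnergy φ))
    exact Set.mem_iUnion.2 ⟨k, φ, rfl, fun x => (hC x).trans ((le_max_left _ _).trans hk),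
      (le_max_right _ _).trans hk⟩

/-- For every `n` the set of path components `π₀(G)` of `G = Symp_ct(ℝ^{2n})` is countable
(Q1(c)); more precisely it is the union over `k = 0, 1, …` of the sets `Z(k, k)`, and all the
sets `Z(L, E)` are finite. -/
theorem result (n : ℕ) :
    Countable (ZerothHomotopy (SympCt n)) ∧
      (∀ L E : ℝ, (boundedClasses n L E).Finite) ∧
      (⋃ k : ℕ, boundedClasses n k k) = (Set.univ : Set (ZerothHomotopy (SympCt n))) := by
  refine ⟨?_, finite_boundedClasses n, iUnion_boundedClasses n⟩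
  rw [← Set.countable_univ_iff, ← iUnion_boundedClasses n]
  exact Set.countable_iUnion fun k => (finite_boundedClasses n k k).countable

end Pool.Agent.Results.MP_ec5dc5_gt.CriticalFiniteness
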