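import Mathlib
import Pool.Agent.Helper17.SympBase
import Pool.Agent.Helper17.Criterion
import Pool.Agent.Helper17.Component

open scoped ContDiff Distributions Topology
open Set Function TopologicalSpace Filter Topology

namespace Pool.Agent.Results.MP_ec5dc5_gt.IdentityComponent

open Pool.Agent.Helper17

/-- The segment criterion: there is a linear symplectic map `M` of `ℝ^{2n}` such that for every
point `x` and every `B` on the segment from the identity to `Dχ(x)` the map `M - B` is
injective. For `M = -1` this says that no `Dχ(x)` has a real eigenvalue in `(-∞, -1]`. -/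
def SegmentCriterion {n : ℕ} (χ : SympCt n) : Prop :=
  ∃ M : Phase n →L[ℝ] Phase n, (∀ u v : Phase n, omegaStd (M u) (M v) = omegaStd u v) ∧
    ∀ (x v : Phase n) (s : ℝ), 0 ≤ s → s ≤ 1 →
      M v = s • fderiv ℝ (χ : Equiv.Perm (Phase n)) x v + (1 - s) • v → v = 0

/-- Let `S` be any set of compactly supported symplectomorphisms of `ℝ^{2n}` which satisfy the
segment criterion, and which contains a uniform `C¹`-neighbourhood of the identity. Then two
elements `φ, ψ` of `Symp_ct(ℝ^{2n})` lie in the same path component (for the direct limit topology)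
if and only if `ψ φ⁻¹` is a product of elements of `S` and their inverses. -/
theorem result (n : ℕ) (ε : ℝ) (hε : 0 < ε) (S : Set (SympCt n))
    (hS1 : ∀ χ : SympCt n, (∀ x : Phase n, ‖fderiv ℝ (χ : Equiv.Perm (Phase n)) x -
      ContinuousLinearMap.id ℝ (Phase n)‖ < ε) → χ ∈ S)
    (hS2 : ∀ χ ∈ S, SegmentCriterion χ) (φ ψ : SympCt n) :
    Joined φ ψ ↔ ψ * φ⁻¹ ∈ Subgroup.closure S :=
  joined_iff_mem_closure hε S hS1 (fun χ hχ => by
    obtain ⟨M, hM, h⟩ := hS2 χ hχ
    exact smoothIsotopic_one_of_criterion χ M hM h) φ ψ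

end Pool.Agent.Results.MP_ec5dc5_gt.IdentityComponent
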