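import Mathlib
import Pool.Agent.Helper17.SympBase
import Pool.Agent.Helper17.FlatFamilies

open scoped ContDiff Distributions Topology
open Set Function TopologicalSpace

namespace Pool.Agent.Results.MP_ec5dc5_gt.NearlyIsometric

open Pool.Agent.Helper17

/-- For every `n` there is `δ > 0` such that every continuous family `f : T → Symp_ct(ℝ^{2n})`
over a compact space `T`, whose members satisfy `‖D(f t)‖ ≤ 1 + δ` everywhere, is homotopic to the
constant family `id`. -/
theorem result (n : ℕ) : ∃ δ : ℝ, 0 < δ ∧
    ∀ (T : Type) [TopologicalSpace T] [CompactSpace T] (f : C(T, SympCt n)),
      (∀ (t : T) (x : Phase n), ‖fderiv ℝ (f t : Equiv.Perm (Phase n)) x‖ ≤ 1 + δ) →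
        f.Homotopic (ContinuousMap.const T 1) :=
  nullhomotopic_of_near_isometry n

end Pool.Agent.Results.MP_ec5dc5_gt.NearlyIsometric

/-
Claim file of this former hand-in (removed from Results to make room for PairSpaces):
Proves: For every n there is delta > 0 such that, with G = Symp_ct(R^{2n}) in its direct limit topology, every continuous map f from a compact space T to G with |D(f t)(x)| <= 1 + delta for all t and x (operator norm) is homotopic to the constant map id.
Definitions: Phase n = Euclidean R^{2n}; omegaStd = standard symplectic form; SympCt n = G = group of compactly supported symplectomorphisms of R^{2n}; SympSupp n K = elements equal to the identity outside compact K, with inclusion incl and disp = phi - id; its topology is induced by disp from the smooth maps supported in K (uniform convergence of all derivatives); G has the finest topology making all incl continuous.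
Relation: Partial result on Q1(a) and (b): a scale-invariant gap. All compact families (all spheres, single maps) of almost isometric symplectomorphisms are null-homotopic, with a bound depending on n only and not on the supports; the derivatives can turn by any angle across scales, so they need not be close to a constant matrix or to the identity (Weinstein's 1971 theorem covers C^1-small maps only). It does not decide (a) or (b).
-/
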