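import Mathlib
import Pool.Agent.Helper17.SympBase
import Pool.Agent.Helper17.LocalDiffeo
import Pool.Agent.Helper17.Isotopy

open scoped ContDiff Distributions Topology
open Set Function TopologicalSpace Filter

namespace Pool.Agent.Results.MP_ec5dc5_gt.PiZeroCountable

open Pool.Agent.Helper17

variable {n : ℕ}

/-- The derivative of an element supported in `K`, restricted to `K`. -/
noncomputable def derivOn (K : Compacts (Phase n)) (φ : SympSupp n K) :
    C(K, Phase n →L[ℝ] Phase n) where
  toFun p := fderiv ℝ (φ.1 : Equiv.Perm (Phase n)) p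
  continuous_toFun := (φ.1.2.1.continuous_fderiv (by simp)).comp continuous_subtype_val

/-- A `C¹`-neighbourhood of `φ` consisting of elements isotopic to `φ`. -/
lemma exists_radius (K : Compacts (Phase n)) (φ : SympSupp n K) :
    ∃ δ : ℝ, 0 < δ ∧ ∀ ψ : SympSupp n K, dist (derivOn K ψ) (derivOn K φ) < δ →
      SmoothIsotopic ψ.1 φ.1 := by
  obtain ⟨hφ, hφs, hφo, -⟩ := φ.1.2
  set f : Phase n → Phase n := fun x => (φ.1 : Equiv.Perm (Phase n)) x with hf
  set fi : Phase n → Phase n := fun x => (φ.1 : Equiv.Perm (Phase n)).symm x with hfi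
  have hcont : Continuous (fun x => fderiv ℝ fi (f x)) :=
    (hφs.continuous_fderiv (by simp)).comp hφ.continuous
  obtain ⟨C, hC⟩ := K.isCompact.exists_bound_of_continuousOn hcont.continuousOn
  have hfifd : ∀ x w, fderiv ℝ fi (f x) (fderiv ℝ f x w) = w := by
    intro x w
    have h : (fderiv ℝ fi (f x)).comp (fderiv ℝ f x) = ContinuousLinearMap.id ℝ _ := by
      rw [← fderiv_comp x (hφs.differentiable (by simp) _) (hφ.differentiable (by simp) _)]
      have : (fi ∘ f : Phase n → Phase n) = id := by ext1 x; simp [hf, hfi]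
      rw [this, fderiv_id]
    have := congrArg (fun L => L w) h
    simpa using this
  set C' : ℝ := max C 1 with hC'
  have hC'0 : 0 < C' := lt_of_lt_of_le one_pos (le_max_right _ _)
  refine ⟨C'⁻¹, inv_pos.2 hC'0, ?_⟩
  intro ψ hψ
  obtain ⟨hψ1, hψs, hψo, -⟩ := ψ.1.2
  set h : Phase n → Phase n := fun x => (ψ.1 : Equiv.Perm (Phase n)) x with hh
  rw [ContinuousMap.dist_lt_iff (inv_pos.2 hC'0)] at hψ
  -- the quotient `ψ φ⁻¹`
  have hquot : SmoothIsotopic (ψ.1 * φ.1⁻¹) 1 := by
    apply smoothIsotopic_one_of_no_neg_eigenvalue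
    intro y v μ hμ hv
    set x : Phase n := fi y with hx
    have hfx : f x = y := by simp [hx, hf, hfi]
    set w : Phase n := fderiv ℝ fi y v with hw
    -- `D(ψ φ⁻¹)(y) v = Dψ(x) w` and `v = Dφ(x) w`
    have h1 : fderiv ℝ ((ψ.1 * φ.1⁻¹ : SympCt n) : Equiv.Perm (Phase n)) y v =
        fderiv ℝ h x w := by
      have : fderiv ℝ ((ψ.1 * φ.1⁻¹ : SympCt n) : Equiv.Perm (Phase n)) y =
          (fderiv ℝ h (fi y)).comp (fderiv ℝ fi y) :=
        fderiv_comp y (hψ1.differentiable (by simp) _) (hφs.differentiable (by simp) _)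
      rw [this]; rfl
    have h2 : fderiv ℝ f x w = v := by
      have h : (fderiv ℝ f (fi y)).comp (fderiv ℝ fi y) = ContinuousLinearMap.id ℝ _ := by
        rw [← fderiv_comp y (hφ.differentiable (by simp) _) (hφs.differentiable (by simp) _)]
        have : (f ∘ fi : Phase n → Phase n) = id := by ext1 x; simp [hf, hfi]
        rw [this, fderiv_id]
      have := congrArg (fun L => L v) h
      simpa using this
    rw [h1] at hv
    -- estimate
    have h3 : (fderiv ℝ h x - fderiv ℝ f x) w = -((1 + μ) • v) := by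
      rw [sub_apply, hv, h2]; module
    by_cases hxK : x ∈ K
    · have h4 : ‖fderiv ℝ h x - fderiv ℝ f x‖ < C'⁻¹ := by
        have := hψ ⟨x, hxK⟩
        rw [dist_eq_norm] at this
        exact this
      have h5 : ‖w‖ ≤ C' * ‖v‖ := by
        have h6 : w = fderiv ℝ fi (f x) v := by rw [hfx]
        rw [h6]
        exact (ContinuousLinearMap.le_opNorm _ _).trans
          (mul_le_mul_of_nonneg_right ((hC x hxK).trans (le_max_left _ _)) (norm_nonneg _))
      have h6 : (1 + μ) * ‖v‖ ≤ ‖v‖ := by
        calc (1 + μ) * ‖v‖ = ‖(fderiv ℝ h x - fderiv ℝ f x) w‖ := by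
              rw [h3, norm_neg, norm_smul, Real.norm_of_nonneg (by linarith)]
          _ ≤ ‖fderiv ℝ h x - fderiv ℝ f x‖ * ‖w‖ := ContinuousLinearMap.le_opNorm _ _
          _ ≤ C'⁻¹ * (C' * ‖v‖) := by gcongr
          _ = ‖v‖ := by rw [← mul_assoc, inv_mul_cancel₀ hC'0.ne', one_mul]
      have h7 : ‖v‖ = 0 := by
        have := norm_nonneg v
        nlinarith
      exact norm_eq_zero.1 h7
    · -- outside `K` both maps are the identity near `x`
      have hopen : (K : Set (Phase n))ᶜ ∈ 𝓝 x := K.isCompact.isClosed.isOpen_compl.mem_nhds hxK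
      have h8 : h =ᶠ[𝓝 x] f := by
        filter_upwards [hopen] with z hz
        simp only [hh, hf]
        rw [ψ.2 z hz, φ.2 z hz]
      rw [h8.fderiv_eq, sub_self, zero_apply] at h3
      have h9 : (1 + μ) • v = 0 := by rw [← neg_eq_zero, ← h3]
      rcases smul_eq_zero.1 h9 with h10 | h10
      · linarith
      · exact h10
  have := hquot.mul_right φ.1
  simpa using this

/-- The set of isotopy classes of compactly supported symplectomorphisms of `ℝ^{2n}` is
countable. -/
theorem result (n : ℕ) : Countable (ZerothHomotopy (SympCt n)) := by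
  set B : ℕ → Compacts (Phase n) := fun N => ⟨Metric.closedBall 0 N, isCompact_closedBall 0 N⟩
    with hB
  have hstep : ∀ N : ℕ, ∃ s : Set (SympSupp n (B N)), s.Countable ∧
      ∀ ψ : SympSupp n (B N), ∃ φ ∈ s, Joined ψ.1 φ.1 := by
    intro N
    let τ : TopologicalSpace (SympSupp n (B N)) :=
      TopologicalSpace.induced (derivOn (B N)) inferInstance
    have : @SecondCountableTopology _ τ :=
      TopologicalSpace.secondCountableTopology_induced _ _ (derivOn (B N))
    choose δ hδ0 hδ using exists_radius (B N)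
    have hcover := @TopologicalSpace.countable_cover_nhds _ τ this
      (fun φ => (derivOn (B N)) ⁻¹' (Metric.ball (derivOn (B N) φ) (δ φ)))
      (fun φ => by
        have hc : @Continuous _ _ τ _ (derivOn (B N)) := continuous_induced_dom
        have hb : Metric.ball (derivOn (B N) φ) (δ φ) ∈ 𝓝 (derivOn (B N) φ) := by
          have := Metric.isOpen_ball.mem_nhds (Metric.mem_ball_self (x := derivOn (B N) φ) (hδ0 φ))
          exact this
        exact hc.continuousAt.preimage_mem_nhds hb)
    obtain ⟨s, hs, hcov⟩ := hcover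
    refine ⟨s, hs, fun ψ => ?_⟩
    have : ψ ∈ ⋃ x ∈ s, (derivOn (B N)) ⁻¹' (Metric.ball (derivOn (B N) x) (δ x)) :=
      hcov ▸ mem_univ ψ
    simp only [mem_iUnion, exists_prop] at this
    obtain ⟨φ, hφs, hφ⟩ := this
    exact ⟨φ, hφs, (hδ φ ψ hφ).joined⟩
  choose s hs hsj using hstep
  rw [← Set.countable_univ_iff]
  have hcount : (⋃ N, (fun φ : SympSupp n (B N) => ZerothHomotopy.mk φ.1) '' s N).Countable :=
    Set.countable_iUnion fun N => (hs N).image _
  refine hcount.mono ?_
  intro c _
  induction c using ZerothHomotopy.rec with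
  | mk ψ =>
    obtain ⟨-, -, -, K, hK, hψK⟩ := ψ.2
    obtain ⟨R, hR⟩ := hK.isBounded.subset_closedBall (0 : Phase n)
    obtain ⟨N, hN⟩ := exists_nat_ge R
    have hsub : K ⊆ Metric.closedBall 0 (N : ℝ) :=
      hR.trans (Metric.closedBall_subset_closedBall hN)
    set ψ' : SympSupp n (B N) := ⟨ψ, fun p hp => hψK p fun h => hp (hsub h)⟩
    obtain ⟨φ, hφ, hj⟩ := hsj N ψ'
    rw [mem_iUnion]
    refine ⟨N, φ, hφ, ?_⟩
    exact ZerothHomotopy.sound (hj.symm).somePath

end Pool.Agent.Results.MP_ec5dc5_gt.PiZeroCountable
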