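import Mathlib
import Pool.Agent.Helper17.SympBase
import Pool.Agent.Helper17.Isotopy
import Pool.Agent.Helper17.DirectLimit
import Pool.Agent.Helper17.Near
import Pool.Agent.Helper17.Criterion
import Pool.Agent.Helper17.Translate
import Pool.Agent.Helper17.Component

open scoped ContDiff Distributions Topology
open Set Function TopologicalSpace Filter Topology

namespace Pool.Agent.Results.MP_ec5dc5_gt.UltrametricNorm

open Pool.Agent.Helper17

/-- `C1Bound ψ r` means that `‖Dψ(x) - 1‖ ≤ r` for all `x` (operator norm). -/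
def C1Bound {n : ℕ} (ψ : SympCt n) (r : ℝ) : Prop :=
  ∀ x : Phase n, ‖fderiv ℝ (ψ : Equiv.Perm (Phase n)) x - ContinuousLinearMap.id ℝ (Phase n)‖ ≤ r

/-- The infimum of `sup_x ‖Dψ(x) - 1‖` over all `ψ` in the path component of `φ`. -/
noncomputable def nu {n : ℕ} (φ : SympCt n) : ℝ :=
  sInf {r : ℝ | 0 ≤ r ∧ ∃ ψ : SympCt n, Joined φ ψ ∧ C1Bound ψ r}

variable {n : ℕ}

/-- The standard complex structure. -/
noncomputable def J (u : Phase n) : Phase n :=
  WithLp.toLp 2 (Sum.elim (fun i => -u (Sum.inr i)) (fun i => u (Sum.inl i)))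

lemma omegaStd_eq_inner (u v : Phase n) : omegaStd u v = inner ℝ (J u) v := by
  rw [PiLp.inner_apply, Fintype.sum_sum_type, omegaStd, ← Finset.sum_add_distrib]
  refine Finset.sum_congr rfl fun i _ => ?_
  simp [J]
  ring

lemma norm_J (u : Phase n) : ‖J u‖ = ‖u‖ := by
  rw [← sq_eq_sq₀ (norm_nonneg _) (norm_nonneg _), EuclideanSpace.norm_sq_eq,
    EuclideanSpace.norm_sq_eq, Fintype.sum_sum_type, Fintype.sum_sum_type]
  simp [J]
  ring

lemma omegaStd_le (u v : Phase n) : omegaStd u v ≤ ‖u‖ * ‖v‖ := by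
  rw [omegaStd_eq_inner, ← norm_J u]
  exact real_inner_le_norm _ _

lemma omegaStd_J (w : Phase n) : omegaStd w (J w) = ‖w‖ ^ 2 := by
  rw [omegaStd_eq_inner, real_inner_self_eq_norm_sq, norm_J]

lemma C1Bound.inv {φ : SympCt n} {r : ℝ} (h : C1Bound φ r) : C1Bound φ⁻¹ r := by
  intro y
  have hr : 0 ≤ r := (norm_nonneg _).trans (h y)
  set x : Phase n := ((φ⁻¹ : SympCt n) : Equiv.Perm (Phase n)) y with hx
  set A := fderiv ℝ (φ : Equiv.Perm (Phase n)) x with hA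
  set B := fderiv ℝ ((φ⁻¹ : SympCt n) : Equiv.Perm (Phase n)) y with hB
  have hAB : ∀ v, A (B v) = v := fun v => SympCt.fderiv_fderiv_inv φ y v
  have hAo : ∀ u v, omegaStd (A u) (A v) = omegaStd u v := fun u v => φ.2.2.2.1 x u v
  apply ContinuousLinearMap.opNorm_le_bound _ hr
  intro u
  set w := (B - ContinuousLinearMap.id ℝ (Phase n)) u with hw
  have h1 : ‖w‖ ^ 2 ≤ r * ‖u‖ * ‖w‖ := by
    calc ‖w‖ ^ 2 = omegaStd w (J w) := (omegaStd_J w).symm
      _ = omegaStd (B u) (J w) - omegaStd u (J w) := by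
          rw [hw, sub_apply, ContinuousLinearMap.id_apply, omegaStd_sub_left]
      _ = omegaStd u (A (J w)) - omegaStd u (J w) := by
          rw [← hAo (B u), hAB]
      _ = omegaStd u ((A - ContinuousLinearMap.id ℝ (Phase n)) (J w)) := by
          rw [sub_apply, ContinuousLinearMap.id_apply, omegaStd_sub_right]
      _ ≤ ‖u‖ * ‖(A - ContinuousLinearMap.id ℝ (Phase n)) (J w)‖ := omegaStd_le _ _
      _ ≤ ‖u‖ * (r * ‖w‖) := by
          gcongr
          calc ‖(A - ContinuousLinearMap.id ℝ (Phase n)) (J w)‖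
              ≤ ‖A - ContinuousLinearMap.id ℝ (Phase n)‖ * ‖J w‖ :=
                ContinuousLinearMap.le_opNorm _ _
            _ ≤ r * ‖w‖ := by
                rw [norm_J]
                exact mul_le_mul_of_nonneg_right (h x) (norm_nonneg _)
      _ = r * ‖u‖ * ‖w‖ := by ring
  rcases (norm_nonneg w).eq_or_lt with h0 | h0
  · rw [← h0]; positivity
  · rw [sq] at h1
    exact le_of_mul_le_mul_right h1 h0

lemma exists_C1Bound (φ : SympCt n) : ∃ r : ℝ, 0 ≤ r ∧ C1Bound φ r := by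
  obtain ⟨N, hN⟩ := exists_supported_ballC φ
  have hN' := hN N le_rfl
  have hcont : Continuous (fun x => fderiv ℝ (φ : Equiv.Perm (Phase n)) x -
      ContinuousLinearMap.id ℝ (Phase n)) :=
    ((SympCt.contDiff φ).continuous_fderiv (by simp)).sub continuous_const
  obtain ⟨C, hC⟩ := (ballC n N).isCompact.exists_bound_of_continuousOn hcont.continuousOn
  refine ⟨max C 0, le_max_right _ _, fun x => ?_⟩
  by_cases hx : x ∈ ballC n N
  · exact (hC x hx).trans (le_max_left _ _)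
  · have h1 : (φ : Equiv.Perm (Phase n)) =ᶠ[𝓝 x] (id : Phase n → Phase n) := by
      filter_upwards [(ballC n N).isCompact.isClosed.isOpen_compl.mem_nhds hx] with z hz
      exact hN' z hz
    rw [h1.fderiv_eq, fderiv_id, sub_self, norm_zero]
    exact le_max_right _ _

lemma nonempty_set (φ : SympCt n) :
    {r : ℝ | 0 ≤ r ∧ ∃ ψ : SympCt n, Joined φ ψ ∧ C1Bound ψ r}.Nonempty := by
  obtain ⟨r, hr, h⟩ := exists_C1Bound φ
  exact ⟨r, hr, φ, Joined.refl _, h⟩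

lemma bddBelow_set (φ : SympCt n) :
    BddBelow {r : ℝ | 0 ≤ r ∧ ∃ ψ : SympCt n, Joined φ ψ ∧ C1Bound ψ r} :=
  ⟨0, fun _ hr => hr.1⟩

lemma nu_nonneg (φ : SympCt n) : 0 ≤ nu φ :=
  le_csInf (nonempty_set φ) fun _ hr => hr.1

lemma nu_lt_iff (φ : SympCt n) (r : ℝ) :
    nu φ < r ↔ ∃ s, s < r ∧ 0 ≤ s ∧ ∃ ψ : SympCt n, Joined φ ψ ∧ C1Bound ψ s := by
  rw [nu, csInf_lt_iff (bddBelow_set φ) (nonempty_set φ)]
  constructor
  · rintro ⟨s, ⟨h0, h1⟩, h2⟩
    exact ⟨s, h2, h0, h1⟩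
  · rintro ⟨s, h2, h0, h1⟩
    exact ⟨s, ⟨h0, h1⟩, h2⟩

lemma joined_comm (φ ψ : SympCt n) : Joined (φ * ψ) (ψ * φ) := by
  rcases Nat.eq_zero_or_pos n with hn | hn
  · subst hn
    have : φ * ψ = ψ * φ := Subtype.ext (Equiv.ext fun x => Subsingleton.elim _ _)
    rw [this]
  · obtain ⟨c, A, B, hA, hB, hAB, hφ, hψ⟩ := exists_translate_disjoint hn φ ψ
    have h1 : Joined ψ (translate c ψ) := (smoothIsotopic_translate c ψ).joined
    have h2 : Joined (φ * ψ) (φ * translate c ψ) := Joined.mul_left' h1 φ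
    rw [mul_comm_of_disjoint hAB hφ hψ] at h2
    exact h2.trans (Joined.mul_right' h1.symm φ)

lemma nu_eq_of_joined {φ ψ : SympCt n} (h : Joined φ ψ) : nu φ = nu ψ := by
  unfold nu
  congr 1
  ext r
  constructor
  · rintro ⟨h0, χ, h1, h2⟩
    exact ⟨h0, χ, h.symm.trans h1, h2⟩
  · rintro ⟨h0, χ, h1, h2⟩
    exact ⟨h0, χ, h.trans h1, h2⟩

lemma nu_mul_le (φ ψ : SympCt n) : nu (φ * ψ) ≤ max (nu φ) (nu ψ) := by
  rcases Nat.eq_zero_or_pos n with hn | hn
  · subst hn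
    have : φ * ψ = φ := Subtype.ext (Equiv.ext fun x => Subsingleton.elim _ _)
    rw [this]; exact le_max_left _ _
  · apply le_of_forall_gt
    intro r hr
    obtain ⟨s, hsr, hs0, φ', hφ', hsφ⟩ := (nu_lt_iff φ r).1 ((le_max_left _ _).trans_lt hr)
    obtain ⟨t, htr, ht0, ψ', hψ', htψ⟩ := (nu_lt_iff ψ r).1 ((le_max_right _ _).trans_lt hr)
    rw [nu_lt_iff]
    obtain ⟨c, A, B, hA, hB, hAB, hφA, hψB⟩ := exists_translate_disjoint hn φ' ψ'
    refine ⟨max s t, max_lt hsr htr, le_max_of_le_left hs0, φ' * translate c ψ', ?_, ?_⟩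
    · have h1 : Joined (φ * ψ) (φ' * ψ) := Joined.mul_right' hφ' ψ
      have h2 : Joined (φ' * ψ) (φ' * ψ') := Joined.mul_left' hψ' φ'
      have h3 : Joined (φ' * ψ') (φ' * translate c ψ') :=
        Joined.mul_left' (smoothIsotopic_translate c ψ').joined φ'
      exact (h1.trans h2).trans h3
    · intro x
      rcases fderiv_mul_of_disjoint hA hB hAB hφA hψB x with h | h
      · rw [h]; exact (hsφ x).trans (le_max_left _ _)
      · rw [h, fderiv_translate]; exact (htψ _).trans (le_max_right _ _)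

lemma nu_inv_le (φ : SympCt n) : nu φ⁻¹ ≤ nu φ := by
  apply le_of_forall_gt
  intro r hr
  obtain ⟨s, hsr, hs0, ψ, hψ, hsψ⟩ := (nu_lt_iff φ r).1 hr
  rw [nu_lt_iff]
  exact ⟨s, hsr, hs0, ψ⁻¹, Joined.inv' hψ, hsψ.inv⟩

lemma joined_one_of_nu_lt (φ : SympCt n) (h : nu φ < 2) : Joined φ 1 := by
  obtain ⟨s, hsr, hs0, ψ, hψ, hsψ⟩ := (nu_lt_iff φ 2).1 h
  exact hψ.trans (smoothIsotopic_of_lt_two ψ fun x => (hsψ x).trans_lt hsr).joined

lemma nu_one : nu (1 : SympCt n) = 0 := by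
  apply le_antisymm _ (nu_nonneg _)
  apply csInf_le (bddBelow_set _)
  refine ⟨le_rfl, 1, Joined.refl _, fun x => ?_⟩
  rw [SympCt.fderiv_one, sub_self, norm_zero]

/-- The group `π₀(Symp_ct(ℝ^{2n}))` is abelian, and `ν` is an ultrametric norm on it taking values
in `{0} ∪ [2, ∞)`. -/
theorem result (n : ℕ) :
    (∀ φ ψ : SympCt n, Joined (φ * ψ) (ψ * φ)) ∧
    (∀ φ ψ : SympCt n, Joined φ ψ → nu φ = nu ψ) ∧
    (∀ φ ψ : SympCt n, nu (φ * ψ) ≤ max (nu φ) (nu ψ)) ∧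
    (∀ φ : SympCt n, nu φ⁻¹ = nu φ) ∧
    (∀ φ : SympCt n, (Joined φ 1 ∧ nu φ = 0) ∨ (¬ Joined φ 1 ∧ 2 ≤ nu φ)) := by
  refine ⟨joined_comm, fun _ _ => nu_eq_of_joined, nu_mul_le, fun φ => ?_, fun φ => ?_⟩
  · apply le_antisymm (nu_inv_le φ)
    have := nu_inv_le φ⁻¹
    rwa [inv_inv] at this
  · by_cases h : Joined φ 1
    · exact Or.inl ⟨h, by rw [nu_eq_of_joined h, nu_one]⟩
    · exact Or.inr ⟨h, not_lt.1 fun h2 => h (joined_one_of_nu_lt φ h2)⟩

end Pool.Agent.Results.MP_ec5dc5_gt.UltrametricNorm
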