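import Mathlib
import Pool.Agent.Helper17.SympBase
import Pool.Agent.Helper17.FlatFamilies

open scoped ContDiff Distributions Topology
open Set Function TopologicalSpace

namespace Pool.Agent.Results.MP_ec5dc5_gt.UniformlyFlat

open Pool.Agent.Helper17

/-- `φ` is `ε`-flat at all places and scales: on every closed ball of radius `r > 0` it is within
`ε r` of some affine map. -/
def IsFlat {n : ℕ} (φ : SympCt n) (ε : ℝ) : Prop :=
  ∀ (x : Phase n) (r : ℝ), 0 < r → ∃ (c : Phase n) (M : Phase n →L[ℝ] Phase n),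
    ∀ z : Phase n, ‖z - x‖ ≤ r → ‖(φ : Equiv.Perm (Phase n)) z - (c + M z)‖ ≤ ε * r

/-- For all `n` and `L` there is `ε > 0` such that every continuous family `f : T → Symp_ct(ℝ^{2n})`
over a compact space `T`, whose members satisfy `‖D(f t)‖ ≤ L` and are `ε`-flat at all places and
scales, is homotopic to the constant family `id`. -/
theorem result (n : ℕ) (L : ℝ) : ∃ ε : ℝ, 0 < ε ∧
    ∀ (T : Type) [TopologicalSpace T] [CompactSpace T] (f : C(T, SympCt n)),
      (∀ (t : T) (x : Phase n), ‖fderiv ℝ (f t : Equiv.Perm (Phase n)) x‖ ≤ L) →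
      (∀ t : T, IsFlat (f t) ε) → f.Homotopic (ContinuousMap.const T 1) :=
  nullhomotopic_of_flat n L

end Pool.Agent.Results.MP_ec5dc5_gt.UniformlyFlat
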